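import Pool.Agent.Helper93.Fin.Work

/-!
# The hypotheses of the perturbation argument (module Lim6 of MP_f09395_gt)
-/

noncomputable section

namespace Pool.Agent.Helper93.Fin

variable {𝔸 : Type*} [NormedRing 𝔸] [NormedAlgebra ℝ 𝔸]

/-- the hypotheses on the pair of Lie algebras and on `φ` -/
structure NonDeg (h k p m : Submodule ℝ 𝔸) (P : 𝔸 →L[ℝ] m) (φ : m → ℝ) : Prop where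
  kcomm : ∀ a ∈ k, ∀ c ∈ k, ⁅a, c⁆ = 0 → ∃ α β : ℝ, (α ≠ 0 ∨ β ≠ 0) ∧ α • a + β • c = 0
  free : ∀ a ∈ k, ∀ y ∈ p, ⁅a, y⁆ = 0 → a = 0 ∨ y = 0
  n1 : ∀ u ∈ p, ∀ v ∈ p, LinearIndependent ℝ ![u, v] → ⁅u, v⁆ = 0 →
    ∀ a ∈ k, ∀ c ∈ k, ⁅a, v⁆ + ⁅u, c⁆ = 0 → a = 0 ∧ c = 0
  n2 : ∀ u v : m, (u : 𝔸) ∈ p → (v : 𝔸) ∈ p → LinearIndependent ℝ ![u, v] →
    ⁅(u : 𝔸), (v : 𝔸)⁆ = 0 →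
    ¬ ((∀ a ∈ k, D1 φ u (P ⁅a, (u : 𝔸)⁆) = 0) ∧ (∀ a ∈ h ⊔ k, D1 φ u (P ⁅a, (v : 𝔸)⁆) = 0) ∧
      (∀ a ∈ k, D2 φ u v (P ⁅a, (u : 𝔸)⁆) = 0))

end Pool.Agent.Helper93.Fin
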