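import Pool.Agent.helper25.FinLim6C
import Pool.Agent.helper16.Fin.Lim12
import Pool.Agent.helper18.FinLim4
import Pool.Agent.helper10.FinLim5

/-!
# Module Lim6 of MP_f09395_gt: existence of a positively curved perturbation
-/

set_option linter.unusedSectionVars false

noncomputable section

namespace Pool.Agent.Helper93.Fin

open scoped ContDiff
open Filter Topology

variable {𝔸 : Type*} [NormedRing 𝔸] [NormedAlgebra ℝ 𝔸] [FiniteDimensional ℝ 𝔸]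
variable {h k p m : Submodule ℝ 𝔸} {Q : 𝔸 →ₗ[ℝ] 𝔸 →ₗ[ℝ] ℝ} {Ph Pk Pp : 𝔸 →L[ℝ] 𝔸}
variable {P : 𝔸 →L[ℝ] m} {φ : m → ℝ}

namespace Lim6

theorem LL_hom6 (hφ : PhiData h m P Pk Pp φ) (r t : ℝ) (c : ℝ) (u : m) :
    LL Q Pk Pp r t φ (c • u) = c ^ 2 * LL Q Pk Pp r t φ u := by
  unfold LL
  rw [hφ.hom]
  push_cast
  simp only [map_smul, LinearMap.smul_apply, smul_eq_mul]
  ring

/-- normalisation of a flag on which the curvature form is not positive -/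
theorem normalise (hS : SymData h k p Q Ph Pk Pp) (hm : m = k ⊔ p)
    (hP : ∀ X, (P X : 𝔸) = Pk X + Pp X) {L : m → ℝ} (hL : MinkData h m P L)
    (hhom : ∀ (c : ℝ) (u : m), L (c • u) = c ^ 2 * L u) {u b : m}
    (hub : LinearIndependent ℝ ![u, b]) (hR : Rform P L u b ≤ 0) :
    ∃ u' b' : m, ‖u'‖ = 1 ∧ ‖b'‖ = 1 ∧ Q (u' : 𝔸) b' = 0 ∧ Rform P L u' b' ≤ 0 := by
  have hRD := redData_of_sym hS hm hP
  have hu : u ≠ 0 := hub.ne_zero 0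
  have hQu : 0 < Q (u : 𝔸) u :=
    hS.Qpos _ (kp_le (hm.le u.2)) fun h0 => hu (Subtype.ext h0)
  set c := -(Q (u : 𝔸) b / Q (u : 𝔸) u) with hc
  have hb1 : b + c • u ≠ 0 := by
    intro h0
    have h1 : c • u + (1 : ℝ) • b = 0 := by rw [one_smul, add_comm]; exact h0
    exact one_ne_zero (LinearIndependent.pair_iff.1 hub _ _ h1).2
  have hQ1 : Q (u : 𝔸) ((b + c • u : m) : 𝔸) = 0 := by
    push_cast
    rw [map_add, map_smul, smul_eq_mul, hc]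
    field_simp
    ring
  have hnu : ‖u‖ ≠ 0 := norm_ne_zero_iff.2 hu
  have hnb : ‖b + c • u‖ ≠ 0 := norm_ne_zero_iff.2 hb1
  refine ⟨‖u‖⁻¹ • u, ‖b + c • u‖⁻¹ • (b + c • u), ?_, ?_, ?_, ?_⟩
  · rw [norm_smul, norm_inv, norm_norm, inv_mul_cancel₀ hnu]
  · rw [norm_smul, norm_inv, norm_norm, inv_mul_cancel₀ hnb]
  · push_cast at hQ1 ⊢
    rw [map_smul, map_smul, LinearMap.smul_apply, hQ1, smul_zero, smul_zero]
  · have hu' : ‖u‖⁻¹ • u ≠ 0 := smul_ne_zero (inv_ne_zero hnu) hu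
    rw [Rform_smul_right hRD hL hu', Rform_smul_left hRD hL hhom hu _ (inv_ne_zero hnu),
      Rform_add_smul hRD hL hhom hu]
    have h1 : 0 ≤ ‖b + c • u‖⁻¹ ^ 2 := sq_nonneg _
    have h2 : 0 ≤ ‖u‖⁻¹ ^ 2 := sq_nonneg _
    exact mul_nonpos_of_nonneg_of_nonpos h1 (mul_nonpos_of_nonneg_of_nonpos h2 hR)

end Lim6

open Lim6

theorem exists_positive (hS : SymData h k p Q Ph Pk Pp) (hm : m = k ⊔ p)
    (hP : ∀ X, (P X : 𝔸) = Pk X + Pp X) (hφ : PhiData h m P Pk Pp φ)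
    (hN : NonDeg h k p m P φ) :
    ∃ L : m → ℝ, MinkData h m P L ∧ (∀ u : m, u ≠ 0 → 0 < L u) ∧
      (∀ u b : m, LinearIndependent ℝ ![u, b] → 0 < Rform P L u b) ∧
      ∃ r t : ℝ, L = LL Q Pk Pp r t φ := by
  obtain ⟨n, e, d, hd⟩ := exists_dual hS hm
  obtain ⟨r, hr0, hr1, hcoef⟩ := exists_r hS hm hP hφ hN hd
  obtain ⟨t₀, ht₀, hLm⟩ := LL_mink hS hm hP hφ hr0
  by_contra hcon
  -- the sequence of parameters
  have htpos : ∀ N : ℕ, 0 < t₀ / ((N : ℝ) + 2) := fun N => by positivity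
  have htlt : ∀ N : ℕ, t₀ / ((N : ℝ) + 2) < t₀ := by
    intro N
    have h1 : (0 : ℝ) < (N : ℝ) + 2 := by positivity
    rw [div_lt_iff₀ h1]
    have h2 : (0 : ℝ) ≤ N := Nat.cast_nonneg N
    nlinarith
  have ht0 : Tendsto (fun N : ℕ => t₀ / ((N : ℝ) + 2)) atTop (𝓝 0) := by
    have h1 : Tendsto (fun N : ℕ => (N : ℝ) + 2) atTop atTop :=
      tendsto_atTop_add_const_right _ _ tendsto_natCast_atTop_atTop
    exact h1.const_div_atTop t₀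
  have hbad : ∀ N : ℕ, ∃ u b : m, ‖u‖ = 1 ∧ ‖b‖ = 1 ∧ Q (u : 𝔸) b = 0 ∧
      Rform P (LL Q Pk Pp r (t₀ / ((N : ℝ) + 2)) φ) u b ≤ 0 := by
    intro N
    obtain ⟨hL, hLpos⟩ := hLm (t₀ / ((N : ℝ) + 2)) (by
      rw [abs_of_pos (htpos N)]; exact htlt N)
    by_contra hno
    refine hcon ⟨_, hL, hLpos, fun u b hub => ?_, r, t₀ / ((N : ℝ) + 2), rfl⟩
    by_contra hle
    exact hno (normalise hS hm hP hL (LL_hom6 hφ r _) hub (not_lt.1 hle))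
  choose u b hu1 hb1 hub hR using hbad
  -- first extraction
  have hcomp : IsCompact (Metric.sphere (0 : m) 1 ×ˢ Metric.sphere (0 : m) 1) :=
    (isCompact_sphere _ _).prod (isCompact_sphere _ _)
  obtain ⟨⟨u₀, v₀⟩, hmem, ψ, hψ, hlim⟩ := hcomp.tendsto_subseq (x := fun N => (u N, b N))
    fun N => ⟨by simpa using hu1 N, by simpa using hb1 N⟩
  have hu₀ : Tendsto (fun N => u (ψ N)) atTop (𝓝 u₀) := by
    have := (continuous_fst.tendsto (u₀, v₀)).comp hlim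
    exact this
  have hv₀ : Tendsto (fun N => b (ψ N)) atTop (𝓝 v₀) := by
    have := (continuous_snd.tendsto (u₀, v₀)).comp hlim
    exact this
  have hu₀1 : ‖u₀‖ = 1 := by simpa using hmem.1
  have hv₀1 : ‖v₀‖ = 1 := by simpa using hmem.2
  have hu₀0 : u₀ ≠ 0 := fun h0 => by rw [h0, norm_zero] at hu₀1; exact zero_ne_one hu₀1
  have hv₀0 : v₀ ≠ 0 := fun h0 => by rw [h0, norm_zero] at hv₀1; exact zero_ne_one hv₀1
  have hQ₀ : Q (u₀ : 𝔸) v₀ = 0 := by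
    have h1 := Q_tendsto (Q := Q) (val_tendsto hu₀) (val_tendsto hv₀)
    refine tendsto_nhds_unique h1 ?_
    simp only [hub]
    exact tendsto_const_nhds
  have hli := li_of_orth hS hm hu₀0 hv₀0 hQ₀
  have htψ : Tendsto (fun N => t₀ / ((ψ N : ℝ) + 2)) atTop (𝓝 0) :=
    ht0.comp hψ.tendsto_atTop
  have hR0 : R0 Q Ph Pk Pp r (u₀ : 𝔸) v₀ ≤ 0 :=
    le_of_tendsto' (Rform_limit0 hS hm hP hφ hr0 htψ hu₀0 hu₀ hv₀) fun N => hR (ψ N)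
  obtain ⟨hb1', hb2', hb3'⟩ := R0_le hS hr0 hr1 (hm.le u₀.2) (hm.le v₀.2) hR0
  obtain ⟨hPku, hPkv⟩ := mem_p_of_brackets hS hm hN hli hb2' hb3'
  obtain ⟨-, hu₀p, hu₀'⟩ := mem_kp hS (hm.le u₀.2)
  obtain ⟨-, hv₀p, hv₀'⟩ := mem_kp hS (hm.le v₀.2)
  rw [hPku, zero_add] at hu₀'
  rw [hPkv, zero_add] at hv₀'
  rw [← hu₀'] at hu₀p
  rw [← hv₀'] at hv₀p
  have hlie₀ : ⁅(u₀ : 𝔸), (v₀ : 𝔸)⁆ = 0 := by
    rw [hu₀', hv₀']; exact hb1'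
  -- the scale
  set ε : ℕ → ℝ := fun N => t₀ / ((ψ N : ℝ) + 2) + ‖Pk (u (ψ N) : 𝔸)‖ + ‖Pk (b (ψ N) : 𝔸)‖ +
    ‖⁅Pp (u (ψ N) : 𝔸), Pp (b (ψ N) : 𝔸)⁆‖ with hε
  have hεpos : ∀ N, 0 < ε N := fun N => by
    have := htpos (ψ N)
    have h2 := norm_nonneg (Pk (u (ψ N) : 𝔸))
    have h3 := norm_nonneg (Pk (b (ψ N) : 𝔸))
    have h4 := norm_nonneg ⁅Pp (u (ψ N) : 𝔸), Pp (b (ψ N) : 𝔸)⁆
    simp only [hε]
    linarith
  have hPklim : Tendsto (fun N => Pk (u (ψ N) : 𝔸)) atTop (𝓝 0) := by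
    have := (Pk.continuous.tendsto _).comp (val_tendsto hu₀)
    rw [hPku] at this
    exact this
  have hPklim' : Tendsto (fun N => Pk (b (ψ N) : 𝔸)) atTop (𝓝 0) := by
    have := (Pk.continuous.tendsto _).comp (val_tendsto hv₀)
    rw [hPkv] at this
    exact this
  have hlielim : Tendsto (fun N => ⁅Pp (u (ψ N) : 𝔸), Pp (b (ψ N) : 𝔸)⁆) atTop (𝓝 0) := by
    have := lie_tendsto ((Pp.continuous.tendsto _).comp (val_tendsto hu₀))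
      ((Pp.continuous.tendsto _).comp (val_tendsto hv₀))
    rw [hb1'] at this
    exact this
  have hε0 : Tendsto ε atTop (𝓝 0) := by
    have := ((htψ.add hPklim.norm).add hPklim'.norm).add hlielim.norm
    simpa using this
  -- second extraction
  have hcomp2 : IsCompact (Metric.closedBall (0 : ℝ) 1 ×ˢ (Metric.closedBall (0 : 𝔸) 1 ×ˢ
      (Metric.closedBall (0 : 𝔸) 1 ×ˢ Metric.closedBall (0 : 𝔸) 1))) := by
    have : ProperSpace 𝔸 := FiniteDimensional.proper ℝ 𝔸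
    exact (isCompact_closedBall _ _).prod ((isCompact_closedBall _ _).prod
      ((isCompact_closedBall _ _).prod (isCompact_closedBall _ _)))
  have hbound : ∀ (N : ℕ) (X : 𝔸), ‖X‖ ≤ ε N → ‖(ε N)⁻¹ • X‖ ≤ 1 := by
    intro N X hX
    rw [norm_smul, norm_inv, Real.norm_of_nonneg (hεpos N).le, inv_mul_le_iff₀ (hεpos N), mul_one]
    exact hX
  obtain ⟨⟨τ, a, c, z⟩, -, ψ', hψ', hlim2⟩ := hcomp2.tendsto_subseq
    (x := fun N => ((ε N)⁻¹ * (t₀ / ((ψ N : ℝ) + 2)), (ε N)⁻¹ • Pk (u (ψ N) : 𝔸),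
      (ε N)⁻¹ • Pk (b (ψ N) : 𝔸), (ε N)⁻¹ • ⁅Pp (u (ψ N) : 𝔸), Pp (b (ψ N) : 𝔸)⁆))
    fun N => by
      have h1 := (htpos (ψ N)).le
      have h2 := norm_nonneg (Pk (u (ψ N) : 𝔸))
      have h3 := norm_nonneg (Pk (b (ψ N) : 𝔸))
      have h4 := norm_nonneg ⁅Pp (u (ψ N) : 𝔸), Pp (b (ψ N) : 𝔸)⁆
      refine ⟨?_, ?_, ?_, ?_⟩
      · simp only [mem_closedBall_zero_iff]
        rw [Real.norm_of_nonneg (mul_nonneg (inv_nonneg.2 (hεpos N).le) h1),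
          inv_mul_le_iff₀ (hεpos N), mul_one]
        simp only [hε]; linarith
      · simp only [mem_closedBall_zero_iff]
        exact hbound N _ (by simp only [hε]; linarith)
      · simp only [mem_closedBall_zero_iff]
        exact hbound N _ (by simp only [hε]; linarith)
      · simp only [mem_closedBall_zero_iff]
        exact hbound N _ (by simp only [hε]; linarith)
  have l1 : Tendsto (fun N => (ε (ψ' N))⁻¹ * (t₀ / ((ψ (ψ' N) : ℝ) + 2))) atTop (𝓝 τ) :=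
    (continuous_fst.tendsto (τ, a, c, z)).comp hlim2
  have l2 : Tendsto (fun N => (ε (ψ' N))⁻¹ • Pk (u (ψ (ψ' N)) : 𝔸)) atTop (𝓝 a) :=
    ((continuous_fst.comp continuous_snd).tendsto (τ, a, c, z)).comp hlim2
  have l3 : Tendsto (fun N => (ε (ψ' N))⁻¹ • Pk (b (ψ (ψ' N)) : 𝔸)) atTop (𝓝 c) :=
    ((continuous_fst.comp (continuous_snd.comp continuous_snd)).tendsto (τ, a, c, z)).comp hlim2
  have l4 : Tendsto (fun N => (ε (ψ' N))⁻¹ • ⁅Pp (u (ψ (ψ' N)) : 𝔸), Pp (b (ψ (ψ' N)) : 𝔸)⁆)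
      atTop (𝓝 z) :=
    ((continuous_snd.comp (continuous_snd.comp continuous_snd)).tendsto (τ, a, c, z)).comp hlim2
  have hψ'' := hψ'.tendsto_atTop
  -- the gradients
  have hgxp : (gx φ e d u₀ : 𝔸) ∈ p := mem_p_of hS hm fun w hw => by
    rw [gx_spec hd]; exact D1_even hS hφ hu₀0 hu₀p hw
  have hgsp : (gs φ e d u₀ v₀ : 𝔸) ∈ p := mem_p_of hS hm fun w hw => by
    rw [gs_spec hd]; exact D2_even hS hφ hu₀0 hu₀p hv₀p hw
  have hlim5 := Rform_limit2 hS hm hP hφ hr0 (fun N => hεpos (ψ' N)) (hε0.comp hψ'') l1 hu₀0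
    (hu₀.comp hψ'') (hv₀.comp hψ'') hu₀p hv₀p hlie₀ l2 l3 l4 hgxp (gx_spec hd u₀) hgsp
    (gs_spec hd u₀ v₀)
  have hR2 : R2 Q Ph Pk P φ r u₀ v₀ (gx φ e d u₀ : 𝔸) (gs φ e d u₀ v₀ : 𝔸) τ a c z ≤ 0 :=
    le_of_tendsto' hlim5 fun N =>
      mul_nonpos_of_nonneg_of_nonpos (sq_nonneg _) (hR (ψ (ψ' N)))
  have hkc : IsClosed (k : Set 𝔸) := k.closed_of_finiteDimensional
  have hhkc : IsClosed ((h ⊔ k : Submodule ℝ 𝔸) : Set 𝔸) :=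
    (h ⊔ k : Submodule ℝ 𝔸).closed_of_finiteDimensional
  have hak : a ∈ k := hkc.mem_of_tendsto l2 (Eventually.of_forall fun N =>
    Submodule.smul_mem _ _ (mem_kp hS (hm.le (u (ψ (ψ' N))).2)).1)
  have hck : c ∈ k := hkc.mem_of_tendsto l3 (Eventually.of_forall fun N =>
    Submodule.smul_mem _ _ (mem_kp hS (hm.le (b (ψ (ψ' N))).2)).1)
  have hzhk : z ∈ h ⊔ k := hhkc.mem_of_tendsto l4 (Eventually.of_forall fun N =>
    Submodule.smul_mem _ _ (hS.pp _ (mem_kp hS (hm.le (u (ψ (ψ' N))).2)).2.1 _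
      (mem_kp hS (hm.le (b (ψ (ψ' N))).2)).2.1))
  obtain ⟨e1, e2, e3, e4⟩ := R2_le hS hN hr0 hr1 hu₀p hv₀p hlie₀ hli hgxp hgsp
    (hcoef u₀ v₀ hu₀1 hv₀1 hu₀p hv₀p hQ₀ hlie₀) hak hck hzhk hR2
  -- contradiction with the normalisation
  have hsum : Tendsto (fun N => (ε (ψ' N))⁻¹ * (t₀ / ((ψ (ψ' N) : ℝ) + 2))
      + ‖(ε (ψ' N))⁻¹ • Pk (u (ψ (ψ' N)) : 𝔸)‖ + ‖(ε (ψ' N))⁻¹ • Pk (b (ψ (ψ' N)) : 𝔸)‖
      + ‖(ε (ψ' N))⁻¹ • ⁅Pp (u (ψ (ψ' N)) : 𝔸), Pp (b (ψ (ψ' N)) : 𝔸)⁆‖) atTop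
      (𝓝 (τ + ‖a‖ + ‖c‖ + ‖z‖)) := ((l1.add l2.norm).add l3.norm).add l4.norm
  have hone : ∀ N, (ε (ψ' N))⁻¹ * (t₀ / ((ψ (ψ' N) : ℝ) + 2))
      + ‖(ε (ψ' N))⁻¹ • Pk (u (ψ (ψ' N)) : 𝔸)‖ + ‖(ε (ψ' N))⁻¹ • Pk (b (ψ (ψ' N)) : 𝔸)‖
      + ‖(ε (ψ' N))⁻¹ • ⁅Pp (u (ψ (ψ' N)) : 𝔸), Pp (b (ψ (ψ' N)) : 𝔸)⁆‖ = 1 := by
    intro N
    have h1 := hεpos (ψ' N)
    simp only [norm_smul, norm_inv, Real.norm_of_nonneg h1.le]
    rw [← mul_add, ← mul_add, ← mul_add]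
    exact inv_mul_cancel₀ h1.ne'
  simp only [hone, e1, e2, e3, e4, norm_zero, add_zero] at hsum
  exact one_ne_zero (tendsto_nhds_unique tendsto_const_nhds hsum)

end Pool.Agent.Helper93.Fin
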