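import Pool.Agent.helper25.FinNonDeg

/-!
# Module Lim6 of MP_f09395_gt: algebra

The forms `R0` (curvature form of the submersion metric) and `R2` (second order limit form) at a
point where they are not positive.
-/

set_option linter.unusedSectionVars false

noncomputable section

namespace Pool.Agent.Helper93.Fin

open scoped ContDiff

namespace Lim6

variable {𝔸 : Type*} [NormedRing 𝔸] [NormedAlgebra ℝ 𝔸]
variable {h k p m : Submodule ℝ 𝔸} {Q : 𝔸 →ₗ[ℝ] 𝔸 →ₗ[ℝ] ℝ} {Ph Pk Pp : 𝔸 →L[ℝ] 𝔸}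
variable {P : 𝔸 →L[ℝ] m} {φ : m → ℝ}

theorem mem_hk (hS : SymData h k p Q Ph Pk Pp) {X : 𝔸} (hX : X ∈ h ⊔ k) :
    Ph X ∈ h ∧ Pk X ∈ k ∧ X = Ph X + Pk X := by
  obtain ⟨a, ha, b, hb, rfl⟩ := Submodule.mem_sup.1 hX
  have e1 : Ph (a + b) = a := by rw [map_add, hS.Ph_h a ha, hS.Ph_k b hb, add_zero]
  have e2 : Pk (a + b) = b := by rw [map_add, hS.Pk_h a ha, hS.Pk_k b hb, zero_add]
  rw [e1, e2]
  exact ⟨ha, hb, rfl⟩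

theorem mem_kp (hS : SymData h k p Q Ph Pk Pp) {X : 𝔸} (hX : X ∈ k ⊔ p) :
    Pk X ∈ k ∧ Pp X ∈ p ∧ X = Pk X + Pp X := by
  obtain ⟨a, ha, b, hb, rfl⟩ := Submodule.mem_sup.1 hX
  have e1 : Pk (a + b) = a := by rw [map_add, hS.Pk_k a ha, hS.Pk_p b hb, add_zero]
  have e2 : Pp (a + b) = b := by rw [map_add, hS.Pp_k a ha, hS.Pp_p b hb, zero_add]
  rw [e1, e2]
  exact ⟨ha, hb, rfl⟩

theorem h_le {X : 𝔸} (hX : X ∈ h) : X ∈ h ⊔ k ⊔ p :=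
  Submodule.mem_sup_left (Submodule.mem_sup_left hX)

theorem k_le {X : 𝔸} (hX : X ∈ k) : X ∈ h ⊔ k ⊔ p :=
  Submodule.mem_sup_left (Submodule.mem_sup_right hX)

theorem p_le {X : 𝔸} (hX : X ∈ p) : X ∈ h ⊔ k ⊔ p :=
  Submodule.mem_sup_right hX

theorem kp_le {X : 𝔸} (hX : X ∈ k ⊔ p) : X ∈ h ⊔ k ⊔ p := by
  obtain ⟨a, ha, b, hb, rfl⟩ := Submodule.mem_sup.1 hX
  exact add_mem (k_le ha) (p_le hb)

theorem Q_nonneg (hS : SymData h k p Q Ph Pk Pp) {X : 𝔸} (hX : X ∈ h ⊔ k ⊔ p) : 0 ≤ Q X X := by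
  by_cases h0 : X = 0
  · rw [h0]; simp
  · exact (hS.Qpos X hX h0).le

theorem Q_zero (hS : SymData h k p Q Ph Pk Pp) {X : 𝔸} (hX : X ∈ h ⊔ k ⊔ p) (h0 : Q X X ≤ 0) :
    X = 0 := by
  by_contra hne
  exact absurd (hS.Qpos X hX hne) (not_lt.2 h0)

theorem smul_lie' (c : ℝ) (X Y : 𝔸) : ⁅c • X, Y⁆ = c • ⁅X, Y⁆ := by
  rw [Ring.lie_def, Ring.lie_def, smul_mul_assoc, mul_smul_comm, smul_sub]

theorem lie_smul' (c : ℝ) (X Y : 𝔸) : ⁅X, c • Y⁆ = c • ⁅X, Y⁆ := by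
  rw [Ring.lie_def, Ring.lie_def, smul_mul_assoc, mul_smul_comm, smul_sub]

theorem lie_skew' (X Y : 𝔸) : -⁅Y, X⁆ = ⁅X, Y⁆ := by
  rw [Ring.lie_def, Ring.lie_def, neg_sub]

theorem lie_add' (X Y Z : 𝔸) : ⁅X, Y + Z⁆ = ⁅X, Y⁆ + ⁅X, Z⁆ := by
  simp only [Ring.lie_def, mul_add, add_mul]; abel

theorem add_lie' (X Y Z : 𝔸) : ⁅X + Y, Z⁆ = ⁅X, Z⁆ + ⁅Y, Z⁆ := by
  simp only [Ring.lie_def, mul_add, add_mul]; abel

theorem zero_lie' (X : 𝔸) : ⁅(0 : 𝔸), X⁆ = 0 := by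
  simp only [Ring.lie_def, zero_mul, mul_zero, sub_zero]

theorem lie_zero' (X : 𝔸) : ⁅X, (0 : 𝔸)⁆ = 0 := by
  simp only [Ring.lie_def, zero_mul, mul_zero, sub_zero]

/-- the curvature form of the submersion metric vanishes only if the brackets vanish -/
theorem R0_le (hS : SymData h k p Q Ph Pk Pp) {r : ℝ} (hr0 : 0 < r) (hr1 : r < 1) {u b : 𝔸}
    (hu : u ∈ k ⊔ p) (hb : b ∈ k ⊔ p) (hR : R0 Q Ph Pk Pp r u b ≤ 0) :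
    ⁅Pp u, Pp b⁆ = 0 ∧ ⁅Pk u, Pk b⁆ = 0 ∧ ⁅Pk u, Pp b⁆ + ⁅Pp u, Pk b⁆ = 0 := by
  obtain ⟨hua, hux, -⟩ := mem_kp hS hu
  obtain ⟨hbc, hby, -⟩ := mem_kp hS hb
  obtain ⟨hZh, hZk, hZ⟩ := mem_hk hS (hS.pp _ hux _ hby)
  have hW : ⁅Pk u, Pk b⁆ ∈ k := hS.kk _ hua _ hbc
  have hU : ⁅Pk u, Pp b⁆ + ⁅Pp u, Pk b⁆ ∈ p := by
    refine add_mem (hS.kp _ hua _ hby) ?_
    rw [← lie_skew']
    exact neg_mem (hS.kp _ hbc _ hux)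
  unfold R0 at hR
  set A := Ph ⁅Pp u, Pp b⁆ with hA
  set Z := Pk ⁅Pp u, Pp b⁆ with hZdef
  set W := ⁅Pk u, Pk b⁆ with hWdef
  set U := ⁅Pk u, Pp b⁆ + ⁅Pp u, Pk b⁆ with hUdef
  have h1 : 0 ≤ Q A A := Q_nonneg hS (h_le hZh)
  have h2 : 0 ≤ Q U U := Q_nonneg hS (p_le hU)
  have h3 : 0 ≤ Q Z Z := Q_nonneg hS (k_le hZk)
  have hV : W + (3 - 2 * r) • Z ∈ k := add_mem hW (Submodule.smul_mem _ _ hZk)
  have h4 : 0 ≤ Q (W + (3 - 2 * r) • Z) (W + (3 - 2 * r) • Z) := Q_nonneg hS (k_le hV)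
  have h5 : Q (W + (3 - 2 * r) • Z) (W + (3 - 2 * r) • Z)
      = Q W W + 2 * (3 - 2 * r) * Q Z W + (3 - 2 * r) ^ 2 * Q Z Z := by
    simp only [map_add, map_smul, LinearMap.add_apply, LinearMap.smul_apply, smul_eq_mul]
    rw [hS.Qsymm W Z]
    ring
  have hr3 : 0 < (1 - r) ^ 3 := by
    have : 0 < 1 - r := by linarith
    positivity
  have h6 : Q A A + 1 / 4 * r ^ 2 * Q U U + (r / 4) * Q (W + (3 - 2 * r) • Z)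
      (W + (3 - 2 * r) • Z) + (1 - r) ^ 3 * Q Z Z ≤ 0 := by
    rw [h5]
    refine le_trans (le_of_eq ?_) hR
    ring
  have i2 : 0 ≤ 1 / 4 * r ^ 2 * Q U U := by positivity
  have i3 : 0 ≤ (r / 4) * Q (W + (3 - 2 * r) • Z) (W + (3 - 2 * r) • Z) := by positivity
  have i4 : 0 ≤ (1 - r) ^ 3 * Q Z Z := by positivity
  have A0 : A = 0 := Q_zero hS (h_le hZh) (by linarith)
  have U0 : U = 0 := by
    refine Q_zero hS (p_le hU) ?_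
    have : 1 / 4 * r ^ 2 * Q U U ≤ 0 := by linarith
    by_contra hc
    push Not at hc
    have : 0 < 1 / 4 * r ^ 2 * Q U U := by positivity
    linarith
  have Z0 : Z = 0 := by
    refine Q_zero hS (k_le hZk) ?_
    by_contra hc
    push Not at hc
    have : 0 < (1 - r) ^ 3 * Q Z Z := by positivity
    linarith
  have W0 : W = 0 := by
    have hV0 : W + (3 - 2 * r) • Z = 0 := by
      refine Q_zero hS (k_le hV) ?_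
      by_contra hc
      push Not at hc
      have : 0 < (r / 4) * Q (W + (3 - 2 * r) • Z) (W + (3 - 2 * r) • Z) := by positivity
      linarith
    rw [Z0, smul_zero, add_zero] at hV0
    exact hV0
  refine ⟨?_, W0, U0⟩
  rw [hZ, A0, Z0, add_zero]

/-- a plane on which the brackets vanish lies in `𝔭` -/
theorem mem_p_of_brackets (hS : SymData h k p Q Ph Pk Pp) (hm : m = k ⊔ p)
    (hN : NonDeg h k p m P φ) {u b : m} (hub : LinearIndependent ℝ ![u, b])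
    (h1 : ⁅Pk (u : 𝔸), Pk (b : 𝔸)⁆ = 0)
    (h2 : ⁅Pk (u : 𝔸), Pp (b : 𝔸)⁆ + ⁅Pp (u : 𝔸), Pk (b : 𝔸)⁆ = 0) :
    Pk (u : 𝔸) = 0 ∧ Pk (b : 𝔸) = 0 := by
  obtain ⟨hua, hux, hu⟩ := mem_kp hS (X := (u : 𝔸)) (hm.le u.2)
  obtain ⟨hbc, hby, hb⟩ := mem_kp hS (X := (b : 𝔸)) (hm.le b.2)
  obtain ⟨α, β, hαβ, hlin⟩ := hN.kcomm _ hua _ hbc h1
  have hne : α • Pp (u : 𝔸) + β • Pp (b : 𝔸) ≠ 0 := by
    intro h0
    have e : α • u + β • b = 0 := by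
      apply Subtype.ext
      push_cast
      rw [hu, hb]
      calc α • (Pk (u : 𝔸) + Pp (u : 𝔸)) + β • (Pk (b : 𝔸) + Pp (b : 𝔸))
          = (α • Pk (u : 𝔸) + β • Pk (b : 𝔸)) + (α • Pp (u : 𝔸) + β • Pp (b : 𝔸)) := by
            rw [smul_add, smul_add]; abel
        _ = 0 := by rw [hlin, h0, add_zero]
    obtain ⟨ea, eb⟩ := LinearIndependent.pair_iff.1 hub α β e
    rcases hαβ with hα | hβ
    · exact hα ea
    · exact hβ eb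
  have hy : α • Pp (u : 𝔸) + β • Pp (b : 𝔸) ∈ p :=
    add_mem (Submodule.smul_mem _ _ hux) (Submodule.smul_mem _ _ hby)
  have e3 : ⁅Pk (u : 𝔸), Pp (b : 𝔸)⁆ = ⁅Pk (b : 𝔸), Pp (u : 𝔸)⁆ := by
    rw [eq_neg_of_add_eq_zero_left h2, lie_skew']
  rcases hαβ with hα | hβ
  · have e : ⁅Pk (b : 𝔸), α • Pp (u : 𝔸) + β • Pp (b : 𝔸)⁆ = 0 := by
      rw [lie_add', lie_smul', lie_smul', ← e3, ← smul_lie', ← smul_lie', ← add_lie', hlin,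
        zero_lie']
    have hb0 : Pk (b : 𝔸) = 0 := (hN.free _ hbc _ hy e).resolve_right hne
    refine ⟨?_, hb0⟩
    rw [hb0, smul_zero, add_zero] at hlin
    exact (smul_eq_zero.1 hlin).resolve_left hα
  · have e : ⁅Pk (u : 𝔸), α • Pp (u : 𝔸) + β • Pp (b : 𝔸)⁆ = 0 := by
      rw [lie_add', lie_smul', lie_smul', e3, ← smul_lie', ← smul_lie', ← add_lie', hlin,
        zero_lie']
    have hu0 : Pk (u : 𝔸) = 0 := (hN.free _ hua _ hy e).resolve_right hne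
    refine ⟨hu0, ?_⟩
    rw [hu0, smul_zero, zero_add] at hlin
    exact (smul_eq_zero.1 hlin).resolve_left hβ

/-- the coefficient of `τ²` in the lower bound of `R2` -/
def coef (Q : 𝔸 →ₗ[ℝ] 𝔸 →ₗ[ℝ] ℝ) (Ph Pk : 𝔸 →L[ℝ] 𝔸) (P : 𝔸 →L[ℝ] m) (φ : m → ℝ) (r : ℝ)
    (u v : m) (x s : 𝔸) : ℝ :=
  (1 / r - 1 / 4) * Q (Ph ⁅x, (v : 𝔸)⁆) (Ph ⁅x, (v : 𝔸)⁆)
    + (1 - r) / (r * (4 - 3 * r)) * Q (Pk (⁅x, (v : 𝔸)⁆ + ⁅(u : 𝔸), s⁆))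
        (Pk (⁅x, (v : 𝔸)⁆ + ⁅(u : 𝔸), s⁆))
    + (1 - r) / (2 * r) * D3 φ u (P ⁅⁅x, (u : 𝔸)⁆, (u : 𝔸)⁆) v v

/-- completing the squares in `R2` -/
theorem R2_eq (hS : SymData h k p Q Ph Pk Pp) {r : ℝ} (hr0 : 0 < r) (hr1 : r < 1) (u v : m)
    (x s : 𝔸) (τ : ℝ) (a c z : 𝔸) :
    R2 Q Ph Pk P φ r u v x s τ a c z =
      Q (Ph z + (τ / 2) • Ph ⁅x, (v : 𝔸)⁆) (Ph z + (τ / 2) • Ph ⁅x, (v : 𝔸)⁆)
      + (1 - 3 / 4 * r) * Q (Pk z + (τ / (4 - 3 * r)) • Pk (⁅x, (v : 𝔸)⁆ + ⁅(u : 𝔸), s⁆))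
          (Pk z + (τ / (4 - 3 * r)) • Pk (⁅x, (v : 𝔸)⁆ + ⁅(u : 𝔸), s⁆))
      + (1 / 4) * r ^ 2 * Q (⁅a, (v : 𝔸)⁆ + ⁅(u : 𝔸), c⁆) (⁅a, (v : 𝔸)⁆ + ⁅(u : 𝔸), c⁆)
      + τ ^ 2 * coef Q Ph Pk P φ r u v x s := by
  unfold R2 coef
  set A := Ph ⁅x, (v : 𝔸)⁆
  set G := Pk (⁅x, (v : 𝔸)⁆ + ⁅(u : 𝔸), s⁆)
  have e1 : Q (Ph z + (τ / 2) • A) (Ph z + (τ / 2) • A)
      = Q (Ph z) (Ph z) + τ * Q A (Ph z) + τ ^ 2 / 4 * Q A A := by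
    simp only [map_add, map_smul, LinearMap.add_apply, LinearMap.smul_apply, smul_eq_mul]
    rw [hS.Qsymm (Ph z) A]
    ring
  have e2 : Q (Pk z + (τ / (4 - 3 * r)) • G) (Pk z + (τ / (4 - 3 * r)) • G)
      = Q (Pk z) (Pk z) + 2 * (τ / (4 - 3 * r)) * Q G (Pk z)
        + (τ / (4 - 3 * r)) ^ 2 * Q G G := by
    simp only [map_add, map_smul, LinearMap.add_apply, LinearMap.smul_apply, smul_eq_mul]
    rw [hS.Qsymm (Pk z) G]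
    ring
  rw [e1, e2]
  have h4 : (4 - 3 * r) ≠ 0 := by
    have : 0 < 4 - 3 * r := by linarith
    exact this.ne'
  have hr : r ≠ 0 := hr0.ne'
  field_simp
  ring

/-- if `R2 ≤ 0` and the coefficient is positive then `τ = a = c = z = 0` -/
theorem R2_le (hS : SymData h k p Q Ph Pk Pp) (hN : NonDeg h k p m P φ) {r : ℝ} (hr0 : 0 < r)
    (hr1 : r < 1) {u v : m} (hup : (u : 𝔸) ∈ p) (hvp : (v : 𝔸) ∈ p)
    (huv : ⁅(u : 𝔸), (v : 𝔸)⁆ = 0) (hli : LinearIndependent ℝ ![u, v]) {x s : 𝔸} (hx : x ∈ p)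
    (hs : s ∈ p) (hcoef : 0 < coef Q Ph Pk P φ r u v x s) {τ : ℝ} {a c z : 𝔸} (ha : a ∈ k)
    (hc : c ∈ k) (hz : z ∈ h ⊔ k) (hR : R2 Q Ph Pk P φ r u v x s τ a c z ≤ 0) :
    τ = 0 ∧ a = 0 ∧ c = 0 ∧ z = 0 := by
  rw [R2_eq hS hr0 hr1] at hR
  obtain ⟨hzh, hzk, hz'⟩ := mem_hk hS hz
  obtain ⟨hαh, hαk, -⟩ := mem_hk hS (hS.pp _ hx _ hvp)
  obtain ⟨-, hγk, -⟩ := mem_hk hS (add_mem (hS.pp _ hx _ hvp) (hS.pp _ hup _ hs))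
  have hU : ⁅a, (v : 𝔸)⁆ + ⁅(u : 𝔸), c⁆ ∈ p := by
    refine add_mem (hS.kp _ ha _ hvp) ?_
    rw [← lie_skew']
    exact neg_mem (hS.kp _ hc _ hup)
  have i1 := Q_nonneg hS (p := p) (k := k)
    (h_le (add_mem hzh (Submodule.smul_mem _ (τ / 2) hαh)))
  have i2 := Q_nonneg hS (p := p) (h := h)
    (k_le (add_mem hzk (Submodule.smul_mem _ (τ / (4 - 3 * r)) hγk)))
  have i3 := Q_nonneg hS (p_le (h := h) (k := k) hU)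
  have hr4 : 0 < 1 - 3 / 4 * r := by linarith
  have j2 := mul_nonneg hr4.le i2
  have j3 : 0 ≤ (1 / 4) * r ^ 2 * Q (⁅a, (v : 𝔸)⁆ + ⁅(u : 𝔸), c⁆)
      (⁅a, (v : 𝔸)⁆ + ⁅(u : 𝔸), c⁆) := by positivity
  have j4 : 0 ≤ τ ^ 2 * coef Q Ph Pk P φ r u v x s := by positivity
  have hτ : τ = 0 := by
    by_contra hne
    have : 0 < τ ^ 2 * coef Q Ph Pk P φ r u v x s := by positivity
    linarith
  subst hτ
  simp only [zero_div, zero_smul, add_zero] at hR i1 i2 j2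
  have k1 : Ph z = 0 := Q_zero hS (h_le hzh) (by linarith)
  have k2 : Pk z = 0 := by
    refine Q_zero hS (k_le hzk) ?_
    by_contra hcon
    push Not at hcon
    have : 0 < (1 - 3 / 4 * r) * Q (Pk z) (Pk z) := by positivity
    linarith
  have k3 : ⁅a, (v : 𝔸)⁆ + ⁅(u : 𝔸), c⁆ = 0 := by
    refine Q_zero hS (p_le hU) ?_
    by_contra hcon
    push Not at hcon
    have : 0 < (1 / 4) * r ^ 2 * Q (⁅a, (v : 𝔸)⁆ + ⁅(u : 𝔸), c⁆)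
      (⁅a, (v : 𝔸)⁆ + ⁅(u : 𝔸), c⁆) := by positivity
    linarith
  have hli' : LinearIndependent ℝ ![(u : 𝔸), (v : 𝔸)] := by
    rw [LinearIndependent.pair_iff] at hli ⊢
    intro α β hαβ
    exact hli α β (Subtype.ext (by push_cast; exact hαβ))
  obtain ⟨k4, k5⟩ := hN.n1 _ hup _ hvp hli' huv a ha c hc k3
  refine ⟨rfl, k4, k5, ?_⟩
  rw [hz', k1, k2, add_zero]

end Lim6

end Pool.Agent.Helper93.Fin
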