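import Pool.Agent.helper25.FinLim6A
import Pool.Agent.helper77.FinD

/-!
# Module Lim6 of MP_f09395_gt: the gradient of `φ` and the choice of `r`
-/

set_option linter.unusedSectionVars false

noncomputable section

namespace Pool.Agent.Helper93.Fin

open scoped ContDiff
open Filter Topology

namespace Lim6

variable {𝔸 : Type*} [NormedRing 𝔸] [NormedAlgebra ℝ 𝔸] [FiniteDimensional ℝ 𝔸]
variable {h k p m : Submodule ℝ 𝔸} {Q : 𝔸 →ₗ[ℝ] 𝔸 →ₗ[ℝ] ℝ} {Ph Pk Pp : 𝔸 →L[ℝ] 𝔸}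
variable {P : 𝔸 →L[ℝ] m} {φ : m → ℝ}

theorem exists_dual (hS : SymData h k p Q Ph Pk Pp) (hm : m = k ⊔ p) :
    ∃ (n : ℕ) (e d : Fin n → m), ∀ (f : m →ₗ[ℝ] ℝ) (w : m),
      Q ((∑ i, f (e i) • d i : m) : 𝔸) w = f w := by
  let B : LinearMap.BilinForm ℝ m := Q.domRestrict₁₂ m m
  have hB : ∀ x y : m, B x y = Q x y := fun _ _ => rfl
  have hker : LinearMap.ker B = ⊥ := by
    rw [LinearMap.ker_eq_bot']
    intro x hx
    have : Q (x : 𝔸) x ≤ 0 := by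
      rw [← hB, hx]; simp
    exact Subtype.ext (Q_zero hS (kp_le (hm.le x.2)) this)
  have hnd : B.Nondegenerate := by
    refine ⟨?_, ?_⟩
    · intro x hx
      exact Subtype.ext (Q_zero hS (kp_le (hm.le x.2)) (by rw [← hB, hx x]))
    · intro x hx
      exact Subtype.ext (Q_zero hS (kp_le (hm.le x.2)) (by rw [← hB, hx x]))
  let b := Module.finBasis ℝ m
  refine ⟨_, b, B.dualBasis hnd b, fun f w => ?_⟩
  have key : B (∑ i, f (b i) • B.dualBasis hnd b i) = f := by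
    refine b.ext fun j => ?_
    rw [map_sum, LinearMap.sum_apply]
    simp only [map_smul, LinearMap.smul_apply, smul_eq_mul,
      LinearMap.BilinForm.apply_dualBasis_left]
    simp
  rw [← hB, key]

theorem Q_tendsto {ι : Type*} {l : Filter ι} {X Y : ι → 𝔸} {X₀ Y₀ : 𝔸}
    (hX : Tendsto X l (𝓝 X₀)) (hY : Tendsto Y l (𝓝 Y₀)) :
    Tendsto (fun n => Q (X n) (Y n)) l (𝓝 (Q X₀ Y₀)) := by
  let T : 𝔸 →ₗ[ℝ] (𝔸 →L[ℝ] ℝ) :=
    (LinearMap.toContinuousLinearMap : (𝔸 →ₗ[ℝ] ℝ) ≃ₗ[ℝ] (𝔸 →L[ℝ] ℝ)).toLinearMap.comp Q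
  have hT : Continuous T := T.continuous_of_finiteDimensional
  have h1 : Tendsto (fun n => T (X n)) l (𝓝 (T X₀)) := (hT.tendsto X₀).comp hX
  exact (isBoundedBilinearMap_apply.continuous.tendsto (T X₀, Y₀)).comp (h1.prodMk_nhds hY)

theorem lie_tendsto {ι : Type*} {l : Filter ι} {X Y : ι → 𝔸} {X₀ Y₀ : 𝔸}
    (hX : Tendsto X l (𝓝 X₀)) (hY : Tendsto Y l (𝓝 Y₀)) :
    Tendsto (fun n => ⁅X n, Y n⁆) l (𝓝 ⁅X₀, Y₀⁆) := by
  simp only [Ring.lie_def]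
  exact (hX.mul hY).sub (hY.mul hX)

theorem val_tendsto {ι : Type*} {l : Filter ι} {X : ι → m} {X₀ : m}
    (hX : Tendsto X l (𝓝 X₀)) : Tendsto (fun n => (X n : 𝔸)) l (𝓝 (X₀ : 𝔸)) :=
  (continuous_subtype_val.tendsto X₀).comp hX

/-- gradient of `φ` -/
def gx (φ : m → ℝ) {n : ℕ} (e d : Fin n → m) (u : m) : m := ∑ i, D1 φ u (e i) • d i

/-- derivative of the gradient of `φ` in the direction `v` -/
def gs (φ : m → ℝ) {n : ℕ} (e d : Fin n → m) (u v : m) : m := ∑ i, D2 φ u v (e i) • d i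

section grad

variable {n : ℕ} {e d : Fin n → m}

theorem gx_spec (hd : ∀ (f : m →ₗ[ℝ] ℝ) (w : m), Q ((∑ i, f (e i) • d i : m) : 𝔸) w = f w)
    (u w : m) : Q (gx φ e d u : 𝔸) w = D1 φ u w :=
  hd (fderiv ℝ φ u : m →ₗ[ℝ] ℝ) w

theorem gs_spec (hd : ∀ (f : m →ₗ[ℝ] ℝ) (w : m), Q ((∑ i, f (e i) • d i : m) : 𝔸) w = f w)
    (u v w : m) : Q (gs φ e d u v : 𝔸) w = D2 φ u v w :=
  hd (fderiv ℝ (fun z => D1 φ z v) u : m →ₗ[ℝ] ℝ) w

theorem gx_tendsto (hφ : ContDiffOn ℝ ∞ φ {0}ᶜ) {ι : Type*} {l : Filter ι} {u : ι → m}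
    {u₀ : m} (hu₀ : u₀ ≠ 0) (hu : Tendsto u l (𝓝 u₀)) :
    Tendsto (fun n => gx φ e d (u n)) l (𝓝 (gx φ e d u₀)) := by
  unfold gx
  exact tendsto_finsetSum _ fun i _ =>
    (D1_tendsto hφ hu₀ hu tendsto_const_nhds).smul_const _

theorem gs_tendsto (hφ : ContDiffOn ℝ ∞ φ {0}ᶜ) {ι : Type*} {l : Filter ι} {u v : ι → m}
    {u₀ v₀ : m} (hu₀ : u₀ ≠ 0) (hu : Tendsto u l (𝓝 u₀)) (hv : Tendsto v l (𝓝 v₀)) :
    Tendsto (fun n => gs φ e d (u n) (v n)) l (𝓝 (gs φ e d u₀ v₀)) := by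
  unfold gs
  exact tendsto_finsetSum _ fun i _ =>
    (D2_tendsto hφ hu₀ hu hv tendsto_const_nhds).smul_const _

end grad

/-- `φ` is even in the `𝔨` component, so its derivative at points of `𝔭` vanishes on `𝔨` -/
theorem D1_even (hS : SymData h k p Q Ph Pk Pp) (hφ : PhiData h m P Pk Pp φ) {u : m}
    (hu : u ≠ 0) (hup : (u : 𝔸) ∈ p) {w : m} (hw : (w : 𝔸) ∈ k) : D1 φ u w = 0 := by
  have hdiff : DifferentiableAt ℝ φ u :=
    (hφ.smooth.contDiffAt (isOpen_compl_singleton.mem_nhds hu)).differentiableAt (by simp)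
  have hline : ∀ w : m, HasDerivAt (fun s : ℝ => φ (u + s • w)) (D1 φ u w) 0 := by
    intro w
    have h1 : HasDerivAt (fun s : ℝ => u + s • w) w 0 := by
      have := ((hasDerivAt_id (0 : ℝ)).smul_const w).const_add u
      simpa using this
    have h2 : HasFDerivAt φ (fderiv ℝ φ u) (u + (0 : ℝ) • w) := by
      rw [zero_smul, add_zero]; exact hdiff.hasFDerivAt
    exact h2.comp_hasDerivAt (0 : ℝ) h1
  have h1 := hline w
  have h2 := hline (-w)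
  have heq : (fun s : ℝ => φ (u + s • -w)) = fun s : ℝ => φ (u + s • w) := by
    funext s
    refine hφ.even _ _ ?_ ?_
    · push_cast
      simp only [map_add, map_smul, map_neg, hS.Pp_k _ hw, smul_zero, neg_zero]
    · push_cast
      simp only [map_add, map_smul, map_neg, hS.Pk_p _ hup, zero_add, smul_neg]
  rw [heq] at h2
  have h3 := h1.unique h2
  have h4 : D1 φ u (-w) = - D1 φ u w := by unfold D1; rw [map_neg]
  rw [h4] at h3
  linarith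

theorem D2_even (hS : SymData h k p Q Ph Pk Pp) (hφ : PhiData h m P Pk Pp φ) {u v : m}
    (hu : u ≠ 0) (hup : (u : 𝔸) ∈ p) (hvp : (v : 𝔸) ∈ p) {w : m} (hw : (w : 𝔸) ∈ k) :
    D2 φ u v w = 0 := by
  rw [D2_symm hφ.smooth hu]
  have hC : ContDiffAt ℝ ∞ φ u := hφ.smooth.contDiffAt (isOpen_compl_singleton.mem_nhds hu)
  have hdiff : DifferentiableAt ℝ (fun z => D1 φ z w) u := by
    have h1 : ContDiffAt ℝ 1 (fderiv ℝ φ) u :=
      hC.fderiv_right (m := 1) (by norm_cast)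
    have h2 : DifferentiableAt ℝ (fderiv ℝ φ) u := h1.differentiableAt (by simp)
    exact h2.clm_apply (differentiableAt_const w)
  have h1 : HasDerivAt (fun s : ℝ => u + s • v) v 0 := by
    have := ((hasDerivAt_id (0 : ℝ)).smul_const v).const_add u
    simpa using this
  have h2 : HasFDerivAt (fun z => D1 φ z w) (fderiv ℝ (fun z => D1 φ z w) u)
      (u + (0 : ℝ) • v) := by
    rw [zero_smul, add_zero]; exact hdiff.hasFDerivAt
  have h3 : HasDerivAt (fun s : ℝ => D1 φ (u + s • v) w) (D2 φ u w v) 0 := by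
    have := h2.comp_hasDerivAt (0 : ℝ) h1
    exact this
  have hne : ∀ᶠ s : ℝ in 𝓝 0, u + s • v ≠ 0 := by
    have hc : ContinuousAt (fun s : ℝ => u + s • v) 0 := h1.continuousAt
    refine hc.eventually_ne ?_
    rw [zero_smul, add_zero]; exact hu
  have h4 : (fun s : ℝ => D1 φ (u + s • v) w) =ᶠ[𝓝 0] fun _ => (0 : ℝ) := by
    filter_upwards [hne] with s hs
    refine D1_even hS hφ hs ?_ hw
    push_cast
    exact add_mem hup (Submodule.smul_mem _ _ hvp)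
  exact h3.unique ((hasDerivAt_const (0 : ℝ) (0 : ℝ)).congr_of_eventuallyEq h4)

/-- an element of `𝔪` that is orthogonal to `𝔨` lies in `𝔭` -/
theorem mem_p_of (hS : SymData h k p Q Ph Pk Pp) (hm : m = k ⊔ p) {x : m}
    (hx : ∀ w : m, (w : 𝔸) ∈ k → Q (x : 𝔸) w = 0) : (x : 𝔸) ∈ p := by
  obtain ⟨hxk, hxp, hx'⟩ := mem_kp hS (hm.le x.2)
  have hkm : Pk (x : 𝔸) ∈ m := hm.ge (Submodule.mem_sup_left hxk)
  have h1 := hx ⟨Pk (x : 𝔸), hkm⟩ hxk
  simp only at h1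
  have h2 : Q (x : 𝔸) (Pk (x : 𝔸)) = Q (Pk (x : 𝔸)) (Pk (x : 𝔸)) := by
    conv_lhs => rw [hx']
    rw [map_add, LinearMap.add_apply, hS.Qsymm (Pp (x : 𝔸)),
      hS.Qkp _ (by rw [← hx']; exact hxk) _ hxp, add_zero, ← hx']
  rw [h2] at h1
  have h3 : Pk (x : 𝔸) = 0 := Q_zero hS (k_le hxk) h1.le
  rw [hx', h3, zero_add]
  exact hxp

theorem Ph_zero (hS : SymData h k p Q Ph Pk Pp) {X : 𝔸} (hX : X ∈ h ⊔ k)
    (h0 : ∀ Y ∈ h, Q X Y = 0) : Ph X = 0 := by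
  obtain ⟨hXh, hXk, hX'⟩ := mem_hk hS hX
  refine Q_zero hS (h_le hXh) ?_
  have h1 := h0 _ hXh
  have h2 : Q X (Ph X) = Q (Ph X) (Ph X) := by
    conv_lhs => rw [hX']
    rw [map_add, LinearMap.add_apply, hS.Qsymm (Pk X), hS.Qhk _ (by rw [← hX']; exact hXh) _ hXk,
      add_zero, ← hX']
  rw [← h2, h1]

theorem Pk_zero (hS : SymData h k p Q Ph Pk Pp) {X : 𝔸} (hX : X ∈ h ⊔ k)
    (h0 : ∀ Y ∈ k, Q X Y = 0) : Pk X = 0 := by
  obtain ⟨hXh, hXk, hX'⟩ := mem_hk hS hX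
  refine Q_zero hS (k_le hXk) ?_
  have h1 := h0 _ hXk
  have h2 : Q X (Pk X) = Q (Pk X) (Pk X) := by
    conv_lhs => rw [hX']
    rw [map_add, LinearMap.add_apply, hS.Qhk _ hXh _ (by rw [← hX']; exact hXk),
      zero_add, ← hX']
  rw [← h2, h1]

end Lim6

end Pool.Agent.Helper93.Fin
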