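import Pool.Agent.helper25.FinLim6B

/-!
# Module Lim6 of MP_f09395_gt: the choice of `r`
-/

set_option linter.unusedSectionVars false

noncomputable section

namespace Pool.Agent.Helper93.Fin

open scoped ContDiff
open Filter Topology

namespace Lim6

variable {𝔸 : Type*} [NormedRing 𝔸] [NormedAlgebra ℝ 𝔸] [FiniteDimensional ℝ 𝔸]
variable {h k p m : Submodule ℝ 𝔸} {Q : 𝔸 →ₗ[ℝ] 𝔸 →ₗ[ℝ] ℝ} {Ph Pk Pp : 𝔸 →L[ℝ] 𝔸}
variable {P : 𝔸 →L[ℝ] m} {φ : m → ℝ}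

theorem P_of_mem_p (hS : SymData h k p Q Ph Pk Pp) (hP : ∀ X, (P X : 𝔸) = Pk X + Pp X) {X : 𝔸}
    (hX : X ∈ p) : (P X : 𝔸) = X := by
  rw [hP, hS.Pk_p _ hX, hS.Pp_p _ hX, zero_add]

theorem hkp_lie (hS : SymData h k p Q Ph Pk Pp) {a y : 𝔸} (ha : a ∈ h ⊔ k) (hy : y ∈ p) :
    ⁅a, y⁆ ∈ p := by
  obtain ⟨a1, ha1, a2, ha2, rfl⟩ := Submodule.mem_sup.1 ha
  rw [add_lie']
  exact add_mem (hS.hp _ ha1 _ hy) (hS.kp _ ha2 _ hy)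

/-- `Q(x, [Y, u]) = Q([u, x], Y)` -/
theorem Q_rot (hS : SymData h k p Q Ph Pk Pp) (x Y u : 𝔸) : Q x ⁅Y, u⁆ = Q ⁅u, x⁆ Y := by
  rw [hS.Qinv u x Y, ← hS.Qinv x Y u, hS.Qsymm]

/-- the alternative for a commuting pair: the Hessian term does not vanish -/
theorem key (hS : SymData h k p Q Ph Pk Pp)
    (hP : ∀ X, (P X : 𝔸) = Pk X + Pp X) (hφ : PhiData h m P Pk Pp φ)
    (hN : NonDeg h k p m P φ) {u v : m} (hu0 : u ≠ 0) (hup : (u : 𝔸) ∈ p) (hvp : (v : 𝔸) ∈ p)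
    (huv : ⁅(u : 𝔸), (v : 𝔸)⁆ = 0) (hli : LinearIndependent ℝ ![u, v]) {x s : 𝔸} (hx : x ∈ p)
    (hxφ : ∀ w : m, Q x w = D1 φ u w) (hs : s ∈ p) (hsφ : ∀ w : m, Q s w = D2 φ u v w)
    (h0 : Ph ⁅x, (v : 𝔸)⁆ = 0) :
    ⁅x, (u : 𝔸)⁆ = 0 ∧ Pk (⁅x, (v : 𝔸)⁆ + ⁅(u : 𝔸), s⁆) ≠ 0 := by
  have hxu : ⁅(u : 𝔸), x⁆ ∈ h ⊔ k := hS.pp _ hup _ hx
  have hxv : ⁅x, (v : 𝔸)⁆ ∈ h ⊔ k := hS.pp _ hx _ hvp
  have hus : ⁅(u : 𝔸), s⁆ ∈ h ⊔ k := hS.pp _ hup _ hs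
  obtain ⟨-, huxk, hux'⟩ := mem_hk hS hxu
  obtain ⟨-, hxvk, hxv'⟩ := mem_hk hS hxv
  have h1 : Ph ⁅(u : 𝔸), x⁆ = 0 := by
    refine Ph_zero hS hxu fun Y hY => ?_
    rw [← Q_rot hS]
    have h2 := hφ.inv Y hY u hu0
    rw [← hxφ, P_of_mem_p hS hP (hS.hp _ hY _ hup)] at h2
    exact h2
  rw [h1, zero_add] at hux'
  rw [h0, zero_add] at hxv'
  have h3 : ⁅(u : 𝔸), x⁆ ∈ k := by rw [hux']; exact huxk
  have h3' : ⁅x, (u : 𝔸)⁆ ∈ k := by rw [← lie_skew']; exact neg_mem h3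
  have h4 : ⁅x, (v : 𝔸)⁆ ∈ k := by rw [hxv']; exact hxvk
  have hjac : ⁅⁅x, (u : 𝔸)⁆, (v : 𝔸)⁆ + ⁅(u : 𝔸), ⁅x, (v : 𝔸)⁆⁆ = ⁅x, ⁅(u : 𝔸), (v : 𝔸)⁆⁆ := by
    simp only [Ring.lie_def, mul_sub, sub_mul, mul_assoc]
    abel
  have hli' : LinearIndependent ℝ ![(u : 𝔸), (v : 𝔸)] := by
    rw [LinearIndependent.pair_iff] at hli ⊢
    intro α β hαβ
    exact hli α β (Subtype.ext (by push_cast; exact hαβ))
  rw [huv, lie_zero'] at hjac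
  obtain ⟨k1, k2⟩ := hN.n1 _ hup _ hvp hli' huv _ h3' _ h4 hjac
  refine ⟨k1, fun h5 => ?_⟩
  rw [k2, zero_add] at h5
  refine hN.n2 u v hup hvp hli huv ⟨fun a ha => ?_, fun a ha => ?_, fun a ha => ?_⟩
  · rw [← hxφ, P_of_mem_p hS hP (hS.kp _ ha _ hup), Q_rot hS, ← lie_skew', k1]
    simp
  · rw [← hxφ, P_of_mem_p hS hP (hkp_lie hS ha hvp), Q_rot hS, ← lie_skew', k2]
    simp
  · rw [← hsφ, P_of_mem_p hS hP (hS.kp _ ha _ hup), Q_rot hS]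
    obtain ⟨hush, -, hus'⟩ := mem_hk hS hus
    rw [hus', h5, add_zero]
    exact hS.Qhk _ hush _ ha

theorem D3_zero (φ : m → ℝ) (u v w : m) : D3 φ u 0 v w = 0 := by
  have h1 : ∀ z, D1 φ z 0 = 0 := fun z => by unfold D1; simp
  have h2 : ∀ z, D2 φ z 0 v = 0 := fun z => by
    unfold D2
    simp only [h1]
    simp
  unfold D3
  simp only [h2]
  simp

/-- orthogonal nonzero vectors are linearly independent -/
theorem li_of_orth (hS : SymData h k p Q Ph Pk Pp) (hm : m = k ⊔ p) {u v : m} (hu : u ≠ 0)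
    (hv : v ≠ 0) (huv : Q (u : 𝔸) v = 0) : LinearIndependent ℝ ![u, v] := by
  rw [LinearIndependent.pair_iff]
  intro α β hαβ
  have hQu : 0 < Q (u : 𝔸) u :=
    hS.Qpos _ (kp_le (hm.le u.2)) fun h0 => hu (Subtype.ext h0)
  have hQv : 0 < Q (v : 𝔸) v :=
    hS.Qpos _ (kp_le (hm.le v.2)) fun h0 => hv (Subtype.ext h0)
  have h1 : Q (u : 𝔸) ((α • u + β • v : m) : 𝔸) = α * Q (u : 𝔸) u := by
    push_cast
    rw [map_add, map_smul, map_smul, huv, smul_zero, add_zero, smul_eq_mul]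
  have h2 : Q (v : 𝔸) ((α • u + β • v : m) : 𝔸) = β * Q (v : 𝔸) v := by
    push_cast
    rw [map_add, map_smul, map_smul, hS.Qsymm (v : 𝔸) u, huv, smul_zero, zero_add, smul_eq_mul]
  rw [hαβ] at h1 h2
  simp only [ZeroMemClass.coe_zero, map_zero] at h1 h2
  constructor
  · rcases mul_eq_zero.1 h1.symm with h3 | h3
    · exact h3
    · exact absurd h3 hQu.ne'
  · rcases mul_eq_zero.1 h2.symm with h3 | h3
    · exact h3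
    · exact absurd h3 hQv.ne'

/-- the choice of `r` -/
theorem exists_r (hS : SymData h k p Q Ph Pk Pp) (hm : m = k ⊔ p)
    (hP : ∀ X, (P X : 𝔸) = Pk X + Pp X) (hφ : PhiData h m P Pk Pp φ)
    (hN : NonDeg h k p m P φ) {n : ℕ} {e d : Fin n → m}
    (hd : ∀ (f : m →ₗ[ℝ] ℝ) (w : m), Q ((∑ i, f (e i) • d i : m) : 𝔸) w = f w) :
    ∃ r : ℝ, 0 < r ∧ r < 1 ∧ ∀ u v : m, ‖u‖ = 1 → ‖v‖ = 1 → (u : 𝔸) ∈ p → (v : 𝔸) ∈ p →
      Q (u : 𝔸) v = 0 → ⁅(u : 𝔸), (v : 𝔸)⁆ = 0 →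
      0 < coef Q Ph Pk P φ r u v (gx φ e d u : 𝔸) (gs φ e d u v : 𝔸) := by
  by_contra hcon
  push Not at hcon
  have hr1 : ∀ N : ℕ, 0 < 1 - 1 / ((N : ℝ) + 2) := by
    intro N
    have : (0 : ℝ) < (N : ℝ) + 2 := by positivity
    rw [sub_pos, div_lt_one this]
    have : (0 : ℝ) ≤ N := Nat.cast_nonneg N
    linarith
  have hr2 : ∀ N : ℕ, 1 - 1 / ((N : ℝ) + 2) < 1 := by
    intro N
    have : (0 : ℝ) < 1 / ((N : ℝ) + 2) := by positivity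
    linarith
  choose! u v hu1 hv1 hup hvp huv hlie hle using fun N : ℕ => hcon _ (hr1 N) (hr2 N)
  have hr0 : Tendsto (fun N : ℕ => 1 / ((N : ℝ) + 2)) atTop (𝓝 0) := by
    have h1 : Tendsto (fun N : ℕ => (N : ℝ) + 2) atTop atTop :=
      tendsto_atTop_add_const_right _ _ tendsto_natCast_atTop_atTop
    simp only [one_div]
    exact h1.inv_tendsto_atTop
  have hcomp : IsCompact (Metric.sphere (0 : m) 1 ×ˢ Metric.sphere (0 : m) 1) :=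
    (isCompact_sphere _ _).prod (isCompact_sphere _ _)
  obtain ⟨⟨u₀, v₀⟩, hmem, ψ, hψ, hlim⟩ := hcomp.tendsto_subseq (x := fun N => (u N, v N))
    fun N => ⟨by simpa using hu1 N, by simpa using hv1 N⟩
  have hu₀ : Tendsto (fun N => u (ψ N)) atTop (𝓝 u₀) := by
    have := (continuous_fst.tendsto (u₀, v₀)).comp hlim
    exact this
  have hv₀ : Tendsto (fun N => v (ψ N)) atTop (𝓝 v₀) := by
    have := (continuous_snd.tendsto (u₀, v₀)).comp hlim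
    exact this
  have hu₀1 : ‖u₀‖ = 1 := by simpa using hmem.1
  have hv₀1 : ‖v₀‖ = 1 := by simpa using hmem.2
  have hu₀0 : u₀ ≠ 0 := fun h0 => by rw [h0, norm_zero] at hu₀1; exact zero_ne_one hu₀1
  have hv₀0 : v₀ ≠ 0 := fun h0 => by rw [h0, norm_zero] at hv₀1; exact zero_ne_one hv₀1
  have hpc : IsClosed (p : Set 𝔸) := p.closed_of_finiteDimensional
  have hu₀p : (u₀ : 𝔸) ∈ p := hpc.mem_of_tendsto (val_tendsto hu₀)
    (Eventually.of_forall fun N => hup _)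
  have hv₀p : (v₀ : 𝔸) ∈ p := hpc.mem_of_tendsto (val_tendsto hv₀)
    (Eventually.of_forall fun N => hvp _)
  have hQ₀ : Q (u₀ : 𝔸) v₀ = 0 := by
    have h1 := Q_tendsto (Q := Q) (val_tendsto hu₀) (val_tendsto hv₀)
    refine tendsto_nhds_unique h1 ?_
    simp only [huv]
    exact tendsto_const_nhds
  have hlie₀ : ⁅(u₀ : 𝔸), (v₀ : 𝔸)⁆ = 0 := by
    have h1 := lie_tendsto (val_tendsto hu₀) (val_tendsto hv₀)
    refine tendsto_nhds_unique h1 ?_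
    simp only [hlie]
    exact tendsto_const_nhds
  have hli := li_of_orth hS hm hu₀0 hv₀0 hQ₀
  -- gradients
  have hgx := gx_tendsto (e := e) (d := d) hφ.smooth hu₀0 hu₀
  have hgs := gs_tendsto (e := e) (d := d) hφ.smooth hu₀0 hu₀ hv₀
  have hgxp : (gx φ e d u₀ : 𝔸) ∈ p := mem_p_of hS hm fun w hw => by
    rw [gx_spec hd]; exact D1_even hS hφ hu₀0 hu₀p hw
  have hgsp : (gs φ e d u₀ v₀ : 𝔸) ∈ p := mem_p_of hS hm fun w hw => by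
    rw [gs_spec hd]; exact D2_even hS hφ hu₀0 hu₀p hv₀p hw
  -- the three terms
  have hαlim := lie_tendsto (val_tendsto hgx) (val_tendsto hv₀)
  have hβlim := lie_tendsto (val_tendsto hu₀) (val_tendsto hgs)
  have hPα := (Ph.continuous.tendsto _).comp hαlim
  have hPγ := (Pk.continuous.tendsto _).comp (hαlim.add hβlim)
  have hA := Q_tendsto (Q := Q) hPα hPα
  have hG := Q_tendsto (Q := Q) hPγ hPγ
  have hE1 := (P.continuous.tendsto _).comp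
    (lie_tendsto (lie_tendsto (val_tendsto hgx) (val_tendsto hu₀)) (val_tendsto hu₀))
  have hE := D3_tendsto hφ.smooth hu₀0 hu₀ hE1 hv₀ hv₀
  simp only [Function.comp_def] at hA hG hE
  have hle' := fun N => hle (ψ N)
  unfold coef at hle'
  set A₀ := Q (Ph ⁅(gx φ e d u₀ : 𝔸), (v₀ : 𝔸)⁆) (Ph ⁅(gx φ e d u₀ : 𝔸), (v₀ : 𝔸)⁆) with hA₀
  set G₀ := Q (Pk (⁅(gx φ e d u₀ : 𝔸), (v₀ : 𝔸)⁆ + ⁅(u₀ : 𝔸), (gs φ e d u₀ v₀ : 𝔸)⁆))
    (Pk (⁅(gx φ e d u₀ : 𝔸), (v₀ : 𝔸)⁆ + ⁅(u₀ : 𝔸), (gs φ e d u₀ v₀ : 𝔸)⁆)) with hG₀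
  have hAnn : ∀ N, 0 ≤ Q (Ph ⁅(gx φ e d (u (ψ N)) : 𝔸), (v (ψ N) : 𝔸)⁆)
      (Ph ⁅(gx φ e d (u (ψ N)) : 𝔸), (v (ψ N) : 𝔸)⁆) := by
    intro N
    have hu0 : u (ψ N) ≠ 0 := fun h0 => by
      have := hu1 (ψ N); rw [h0, norm_zero] at this; exact zero_ne_one this
    have hgxp' : (gx φ e d (u (ψ N)) : 𝔸) ∈ p := mem_p_of hS hm fun w hw => by
      rw [gx_spec hd]; exact D1_even hS hφ hu0 (hup _) hw
    exact Q_nonneg hS (h_le (mem_hk hS (hS.pp _ hgxp' _ (hvp _))).1)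
  have hrlim : Tendsto (fun N => 1 - 1 / ((ψ N : ℝ) + 2)) atTop (𝓝 1) := by
    have := (hr0.comp hψ.tendsto_atTop).const_sub 1
    simpa using this
  have c1 : Tendsto (fun N => 1 / (1 - 1 / ((ψ N : ℝ) + 2)) - 1 / 4) atTop
      (𝓝 (1 / 1 - 1 / 4 : ℝ)) := (tendsto_const_nhds.div hrlim one_ne_zero).sub_const _
  have c2 : Tendsto (fun N => (1 - (1 - 1 / ((ψ N : ℝ) + 2))) /
      ((1 - 1 / ((ψ N : ℝ) + 2)) * (4 - 3 * (1 - 1 / ((ψ N : ℝ) + 2))))) atTop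
      (𝓝 ((1 - 1) / (1 * (4 - 3 * 1)) : ℝ)) :=
    (hrlim.const_sub 1).div (hrlim.mul ((hrlim.const_mul 3).const_sub 4)) (by norm_num)
  have c3 : Tendsto (fun N => (1 - (1 - 1 / ((ψ N : ℝ) + 2))) /
      (2 * (1 - 1 / ((ψ N : ℝ) + 2)))) atTop (𝓝 ((1 - 1) / (2 * 1) : ℝ)) :=
    (hrlim.const_sub 1).div (hrlim.const_mul 2) (by norm_num)
  have hA₀le : A₀ ≤ 0 := by
    have h1 := le_of_tendsto' (((c1.mul hA).add (c2.mul hG)).add (c3.mul hE)) hle'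
    norm_num at h1
    linarith
  have hPα0 : Ph ⁅(gx φ e d u₀ : 𝔸), (v₀ : 𝔸)⁆ = 0 :=
    Q_zero hS (h_le (mem_hk hS (hS.pp _ hgxp _ hv₀p)).1) hA₀le
  obtain ⟨k1, k2⟩ := key hS hP hφ hN hu₀0 hu₀p hv₀p hlie₀ hli hgxp (gx_spec hd u₀) hgsp
    (gs_spec hd u₀ v₀) hPα0
  have hG₀pos : 0 < G₀ :=
    hS.Qpos _ (k_le (mem_hk hS (add_mem (hS.pp _ hgxp _ hv₀p) (hS.pp _ hu₀p _ hgsp))).2.1) k2
  have hE₀ : D3 φ u₀ (P ⁅⁅(gx φ e d u₀ : 𝔸), (u₀ : 𝔸)⁆, (u₀ : 𝔸)⁆) v₀ v₀ = 0 := by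
    rw [k1, zero_lie', map_zero, D3_zero]
  rw [hE₀] at hE
  have d2 : Tendsto (fun N => 1 /
      ((1 - 1 / ((ψ N : ℝ) + 2)) * (4 - 3 * (1 - 1 / ((ψ N : ℝ) + 2))))) atTop
      (𝓝 (1 / (1 * (4 - 3 * 1)) : ℝ)) :=
    tendsto_const_nhds.div (hrlim.mul ((hrlim.const_mul 3).const_sub 4)) (by norm_num)
  have d3 : Tendsto (fun N => 1 / (2 * (1 - 1 / ((ψ N : ℝ) + 2)))) atTop
      (𝓝 (1 / (2 * 1) : ℝ)) :=
    tendsto_const_nhds.div (hrlim.const_mul 2) (by norm_num)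
  have hfin := le_of_tendsto' ((d2.mul hG).add (d3.mul hE)) (b := 0) fun N => by
    have h1 := hle' N
    have h2 := hAnn N
    have h3 := hr1 (ψ N)
    have h4 := hr2 (ψ N)
    set r := 1 - 1 / ((ψ N : ℝ) + 2)
    have h5 : 0 ≤ (1 / r - 1 / 4) := by
      have : 1 < 1 / r := by rw [lt_div_iff₀ h3]; linarith
      linarith
    have h6 := mul_nonneg h5 h2
    have h7 : 0 < 1 - r := by linarith
    refine le_of_mul_le_mul_left ?_ h7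
    rw [mul_zero]
    refine le_trans (le_of_eq ?_) (le_trans (sub_le_self _ h6) h1)
    ring
  norm_num at hfin
  linarith

end Lim6

end Pool.Agent.Helper93.Fin
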